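import Pool.Agent.W885.TD.Ctl

set_option autoImplicit false

namespace Pool.Agent.W885.TD

open Pool.Agent.Helper227
open Encodable Filter Topology

theorem isOpen_cyl (σ : List Bool) : IsOpen (cyl σ) := by
  have h1 : cyl σ = ⋂ i : Fin σ.length, {X : ℕ → Bool | X i = σ[(i : ℕ)]} := by
    ext X
    simp only [cyl, Set.mem_ofPred_eq, Set.mem_iInter]
    exact ⟨fun h i => h i i.2, fun h i hi => h ⟨i, hi⟩⟩
  rw [h1]
  refine isOpen_iInter_of_finite fun i => ?_
  have h2 : {X : ℕ → Bool | X i = σ[(i : ℕ)]} = (fun X : ℕ → Bool => X i) ⁻¹' {σ[(i : ℕ)]} := rfl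
  rw [h2]
  exact (isOpen_discrete _).preimage (continuous_apply _)

/-- A set meeting every cylinder is dense. -/
theorem dense_of_cyl {S : Set (ℕ → Bool)} (h : ∀ σ : List Bool, ∃ a ∈ S, a ∈ cyl σ) : Dense S := by
  intro x
  choose a ha ha' using fun n => h (pre x n)
  refine mem_closure_of_tendsto (f := a) (b := atTop) ?_ (Eventually.of_forall ha)
  rw [tendsto_pi_nhds]
  intro i
  refine tendsto_const_nhds.congr' ?_
  filter_upwards [eventually_gt_atTop i] with n hn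
  have h1 := ha' n i (by simpa using hn)
  rw [h1, getElem_pre]

/-- The intersection property of comeager sets with a nonmeager set. -/
theorem exists_mem_of_not_meagre {S R : Set (ℕ → Bool)} (hS : ¬ IsMeagre S)
    (hR : R ∈ residual (ℕ → Bool)) : ∃ a ∈ S, a ∈ R := by
  by_contra hc
  push Not at hc
  refine hS ?_
  exact mem_of_superset hR fun a ha ha' => hc a ha' ha

/-- Blocks of coordinates are constant infinitely often. -/
theorem residual_blocks (K : ℕ → Set ℕ) (hK : ∀ i, (K i).Finite)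
    (hK' : ∀ M, ∃ i₀, ∀ i ≥ i₀, ∀ m ∈ K i, M ≤ m) (D : Set ℕ) (hD : D.Infinite) (v : Bool) :
    {a : ℕ → Bool | {i ∈ D | ∀ m ∈ K i, a m = v}.Infinite} ∈ residual (ℕ → Bool) := by
  have h1 : ∀ k : ℕ, {a : ℕ → Bool | ∃ i ∈ D, k ≤ i ∧ ∀ m ∈ K i, a m = v} ∈
      residual (ℕ → Bool) := by
    intro k
    refine residual_of_dense_open ?_ ?_
    · have h2 : {a : ℕ → Bool | ∃ i ∈ D, k ≤ i ∧ ∀ m ∈ K i, a m = v} =
          ⋃ i ∈ {i | i ∈ D ∧ k ≤ i}, ⋂ m ∈ K i, {a : ℕ → Bool | a m = v} := by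
        ext a
        simp only [Set.mem_ofPred_eq, Set.mem_iUnion, Set.mem_iInter, exists_prop, and_assoc]
      rw [h2]
      refine isOpen_biUnion fun i _ => (hK i).isOpen_biInter fun m _ => ?_
      have h3 : {a : ℕ → Bool | a m = v} = (fun a : ℕ → Bool => a m) ⁻¹' {v} := rfl
      rw [h3]
      exact (isOpen_discrete _).preimage (continuous_apply _)
    · refine dense_of_cyl fun σ => ?_
      obtain ⟨i₀, hi₀⟩ := hK' σ.length
      obtain ⟨i, hi, hi'⟩ := hD.exists_gt (max k i₀)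
      refine ⟨fun m => if h : m < σ.length then σ[m] else v, ⟨i, hi, by omega, fun m hm => ?_⟩,
        fun m hm => ?_⟩
      · have := hi₀ i (by omega) m hm
        have h3 : ¬ m < σ.length := by omega
        simp only [h3, dif_neg, not_false_eq_true]
      · simp only [hm, dif_pos]
  refine mem_of_superset (countable_iInter_mem.2 h1) fun a ha => ?_
  rw [Set.mem_iInter] at ha
  rw [Set.mem_ofPred_eq, Set.infinite_iff_exists_gt]
  intro k
  obtain ⟨i, h2, h3, h4⟩ := ha (k + 1)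
  exact ⟨i, ⟨h2, h4⟩, by omega⟩

/-- The real that starts with `σ` and continues with `e`. -/
def glue (σ : List Bool) (e : ℕ → Bool) (m : ℕ) : Bool :=
  if h : m < σ.length then σ[m] else e (m - σ.length)

theorem glue_add (σ : List Bool) (e : ℕ → Bool) (m : ℕ) : glue σ e (σ.length + m) = e m := by
  unfold glue
  rw [dif_neg (by omega)]
  congr 1
  omega

theorem glue_mem (σ : List Bool) (e : ℕ → Bool) : glue σ e ∈ cyl σ := fun i hi => by
  simp [glue, hi]

theorem eq_glue {σ : List Bool} {a : ℕ → Bool} (h : a ∈ cyl σ) :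
    a = glue σ fun m => a (σ.length + m) := by
  funext m
  unfold glue
  by_cases hm : m < σ.length
  · rw [dif_pos hm, h m hm]
  · rw [dif_neg hm]
    congr 1
    omega

/-- One column. -/
theorem exists_col {W : Set (ℕ → Bool)} {σ : List Bool}
    (hW : ∀ ρ, ¬ IsMeagre (cyl (σ ++ ρ) ∩ W)) (s : ℕ → ℕ) (hs : StrictMono s) (v : Bool)
    (n M : ℕ) (D : Set ℕ) (hD : D.Infinite) :
    ∃ e : ℕ → Bool, glue σ e ∈ W ∧ (∀ m < M, e m = v) ∧
      {i ∈ D | ∀ m, Nat.pair n m ∈ Set.Ico (s (2 * i)) (s (2 * i + 2)) → e m = v}.Infinite := by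
  let K : ℕ → Set ℕ := fun i =>
    {m | ∃ m', m = σ.length + m' ∧ Nat.pair n m' ∈ Set.Ico (s (2 * i)) (s (2 * i + 2))}
  have hK : ∀ i, (K i).Finite := by
    intro i
    refine (Set.finite_lt_nat (σ.length + s (2 * i + 2))).subset ?_
    rintro m ⟨m', rfl, h1⟩
    have h2 := Nat.right_le_pair n m'
    have h3 := h1.2
    simp only [Set.mem_ofPred_eq]
    omega
  have hK' : ∀ M, ∃ i₀, ∀ i ≥ i₀, ∀ m ∈ K i, M ≤ m := by
    intro M
    -- `pair n m' < bound` for `m' < M`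
    have h1 : ∃ B, ∀ m' < M, Nat.pair n m' < B := by
      refine ⟨(Finset.range M).sup (fun m' => Nat.pair n m') + 1, fun m' hm' => ?_⟩
      have := Finset.le_sup (f := fun m' => Nat.pair n m') (Finset.mem_range.2 hm')
      omega
    obtain ⟨B, hB⟩ := h1
    refine ⟨B, fun i hi m hm => ?_⟩
    obtain ⟨m', rfl, h2⟩ := hm
    by_contra hc
    have h3 := hB m' (by omega)
    have h4 : 2 * i ≤ s (2 * i) := by simpa using hs.id_le (2 * i)
    have h5 := h2.1
    omega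
  have h1 := residual_blocks K hK hK' D hD v
  obtain ⟨a, ⟨ha, haW⟩, haR⟩ := exists_mem_of_not_meagre (hW (List.replicate M v)) h1
  have ha' : a ∈ cyl σ := cyl_subset (List.prefix_append _ _) ha
  refine ⟨fun m => a (σ.length + m), ?_, fun m hm => ?_, ?_⟩
  · rwa [← eq_glue ha']
  · have h2 := ha (σ.length + m) (by simp; omega)
    change a (σ.length + m) = v
    rw [h2]
    simp
  · refine Set.Infinite.mono ?_ haR
    rintro i ⟨h2, h3⟩
    exact ⟨h2, fun m hm => h3 _ ⟨m, rfl, hm⟩⟩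

/-- All columns. -/
theorem exists_cols {W : Set (ℕ → Bool)} {σ : List Bool}
    (hW : ∀ ρ, ¬ IsMeagre (cyl (σ ++ ρ) ∩ W)) (s : ℕ → ℕ) (hs : StrictMono s) (v : Bool) :
    ∃ X : ℕ → Bool, (∀ n, glue σ (fun m => X (Nat.pair n m)) ∈ W) ∧
      ∃ d : ℕ → ℕ, StrictMono d ∧ ∀ i, ∀ m ∈ Set.Ico (s (2 * d i)) (s (2 * d i + 2)), X m = v := by
  classical
  -- the state before step `n`: an infinite set of indices and a bound
  let St := {p : Set ℕ × ℕ // p.1.Infinite}
  have step : ∀ (n : ℕ) (p : St), ∃ q : (ℕ → Bool) × ℕ × St,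
      glue σ q.1 ∈ W ∧ (∀ m < s (2 * p.1.2 + 2), q.1 m = v) ∧ p.1.2 < q.2.1 ∧
      q.2.1 ∈ q.2.2.1.1 ∧ q.2.2.1.2 = q.2.1 ∧ q.2.2.1.1 ⊆ p.1.1 ∧
      ∀ i ∈ q.2.2.1.1, ∀ m, Nat.pair n m ∈ Set.Ico (s (2 * i)) (s (2 * i + 2)) → q.1 m = v := by
    rintro n ⟨⟨D, b⟩, hD⟩
    obtain ⟨e, h1, h2, h3⟩ := exists_col hW s hs v n (s (2 * b + 2)) D hD
    obtain ⟨d, hd, hd'⟩ := h3.exists_gt b
    exact ⟨(e, d, ⟨(_, d), h3⟩), h1, h2, hd', hd, rfl, fun i hi => hi.1, fun i hi => hi.2⟩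
  choose nx h1 h2 h3 h4 h5 h6 h7 using step
  let st : ℕ → St := fun n => Nat.rec ⟨(Set.univ, 0), Set.infinite_univ⟩
    (fun n p => (nx n p).2.2) n
  have hst : ∀ n, st (n + 1) = (nx n (st n)).2.2 := fun n => rfl
  let e : ℕ → ℕ → Bool := fun n => (nx n (st n)).1
  let d : ℕ → ℕ := fun n => (nx n (st n)).2.1
  have hd : ∀ n, (st (n + 1)).1.2 = d n := fun n => h5 n (st n)
  have hdm : StrictMono d := strictMono_nat_of_lt_succ fun n => by
    have := h3 (n + 1) (st (n + 1))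
    rw [hd n] at this
    exact this
  have hsub : ∀ {i j : ℕ}, i ≤ j → (st j).1.1 ⊆ (st i).1.1 := by
    intro i j hij
    induction j, hij using Nat.le_induction with
    | base => exact subset_rfl
    | succ j _ ih => exact (h6 j (st j)).trans ih
  refine ⟨fun t => e t.unpair.1 t.unpair.2, fun n => ?_, d, hdm, fun i t ht => ?_⟩
  · simp only [Nat.unpair_pair]
    exact h1 n (st n)
  · change e t.unpair.1 t.unpair.2 = v
    obtain ⟨n, m, rfl⟩ : ∃ n m, t = Nat.pair n m := ⟨t.unpair.1, t.unpair.2, by simp⟩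
    simp only [Nat.unpair_pair]
    by_cases hn : n ≤ i
    · -- `d i` belongs to the `n`-th set
      have h8 : d i ∈ (st (n + 1)).1.1 := hsub (show n + 1 ≤ i + 1 by omega) (h4 i (st i))
      exact h7 n (st n) (d i) h8 m ht
    · -- the constraint on the first values
      obtain ⟨n', rfl⟩ : ∃ n', n = n' + 1 := ⟨n - 1, by omega⟩
      refine h2 (n' + 1) (st (n' + 1)) m ?_
      rw [hd n']
      have h8 : s (2 * d i + 2) ≤ s (2 * d n' + 2) := by
        refine hs.monotone ?_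
        have := hdm.monotone (show i ≤ n' by omega)
        omega
      have h9 := Nat.right_le_pair (n' + 1) m
      have h10 := ht.2
      omega

/-- The Baire property from local information. -/
theorem baire_of_local {V : Set (ℕ → Bool)}
    (h : ∀ σ : List Bool, ∃ ρ, IsMeagre (cyl (σ ++ ρ) ∩ V) ∨ IsMeagre (cyl (σ ++ ρ) ∩ Vᶜ)) :
    BaireMeasurableSet V := by
  let O : Set (ℕ → Bool) := ⋃ σ ∈ {σ : List Bool | IsMeagre (cyl σ ∩ Vᶜ)}, cyl σ
  let O' : Set (ℕ → Bool) := ⋃ σ ∈ {σ : List Bool | IsMeagre (cyl σ ∩ V)}, cyl σ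
  have hO : IsOpen O := isOpen_biUnion fun σ _ => isOpen_cyl σ
  have hO' : IsOpen O' := isOpen_biUnion fun σ _ => isOpen_cyl σ
  have h1 : IsMeagre (O ∩ Vᶜ) := by
    have : O ∩ Vᶜ ⊆ ⋃ σ ∈ {σ : List Bool | IsMeagre (cyl σ ∩ Vᶜ)}, cyl σ ∩ Vᶜ := by
      rintro a ⟨ha, ha'⟩
      simp only [O, Set.mem_iUnion] at ha ⊢
      obtain ⟨σ, hσ, h2⟩ := ha
      exact ⟨σ, hσ, h2, ha'⟩
    refine IsMeagre.mono this ?_
    exact isMeagre_biUnion (Set.to_countable _) fun σ hσ => hσ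
  have h2 : IsMeagre (O' ∩ V) := by
    have : O' ∩ V ⊆ ⋃ σ ∈ {σ : List Bool | IsMeagre (cyl σ ∩ V)}, cyl σ ∩ V := by
      rintro a ⟨ha, ha'⟩
      simp only [O', Set.mem_iUnion] at ha ⊢
      obtain ⟨σ, hσ, h2⟩ := ha
      exact ⟨σ, hσ, h2, ha'⟩
    refine IsMeagre.mono this ?_
    exact isMeagre_biUnion (Set.to_countable _) fun σ hσ => hσ
  have h3 : O ∪ O' ∈ residual (ℕ → Bool) := by
    refine residual_of_dense_open (hO.union hO') (dense_of_cyl fun σ => ?_)
    obtain ⟨ρ, hρ⟩ := h σ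
    refine ⟨glue (σ ++ ρ) fun _ => false, ?_,
      cyl_subset (List.prefix_append _ _) (glue_mem _ _)⟩
    rcases hρ with hρ | hρ
    · exact Or.inr (Set.mem_biUnion (x := σ ++ ρ) hρ (glue_mem _ _))
    · exact Or.inl (Set.mem_biUnion (x := σ ++ ρ) hρ (glue_mem _ _))
  refine (hO.baireMeasurableSet).congr ?_
  rw [Filter.eventuallyEq_set]
  filter_upwards [h1, h2, h3] with a ha1 ha2 ha3
  constructor
  · intro ha
    by_contra hc
    exact ha1 ⟨ha, hc⟩
  · intro ha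
    rcases ha3 with h4 | h4
    · exact h4
    · exact absurd ⟨h4, ha⟩ ha2

end Pool.Agent.W885.TD
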