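import Pool.Agent.W885.TD.Main

set_option autoImplicit false

namespace Pool.Agent.W885.TD

open Pool.Agent.Helper227 Pool.Agent.H685R3
open Encodable Filter

theorem gset_mono {x y : ℕ → Bool} {i N M : ℕ} (h : Computes (red i) y x)
    (hM : ∀ L : List ℕ, encode L < N → encode (i :: L) < M) (hN : N ≤ M) :
    gset x N ⊆ gset y M := by
  rintro c ⟨L, k, hL, hk, hc⟩
  exact ⟨i :: L, k, hM L hL, hk.trans hN, (lim_Fam h L k [] c).2 hc⟩

theorem gset_le_gset {x y : ℕ → Bool} (h : TLe x y) :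
    ∃ i, ∀ j ≥ i, gset x (nn j) ⊆ gset y (nn (j + 1)) := by
  obtain ⟨i, hi⟩ := exists_red h
  exact ⟨i, fun j hj => gset_mono hi (fun L hL => nn_comp hj hL)
    (nn_strictMono.monotone (by omega))⟩

/-- The width of the slaloms. -/
def ww (n : ℕ) : ℕ := nn (3 * n + 1) * (nn (3 * n + 1) + 1)

theorem ncard_gset (x : ℕ → Bool) (N : ℕ) : (gset x N).ncard ≤ N * (N + 1) := by
  classical
  let f : ℕ × ℕ → ℕ := fun p =>
    if h : ∃ c, Lim (Fam (Denumerable.ofNat (List ℕ) p.1)) x p.2 [] c then Classical.choose h else 0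
  have h1 : gset x N ⊆ ((Finset.range N ×ˢ Finset.range (N + 1)).image f : Finset ℕ) := by
    rintro c ⟨L, k, hL, hk, hc⟩
    rw [Finset.coe_image]
    refine ⟨(encode L, k), ?_, ?_⟩
    · simp only [Finset.coe_product, Set.mem_prod, Finset.coe_range, Set.mem_Iio]
      omega
    · have h3 : ∃ c, Lim (Fam (Denumerable.ofNat (List ℕ) (encode L))) x k [] c := by
        rw [Denumerable.ofNat_encode]
        exact ⟨c, hc⟩
      change (if h : ∃ c, Lim (Fam (Denumerable.ofNat (List ℕ) (encode L))) x k [] c then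
        Classical.choose h else 0) = c
      rw [dif_pos h3]
      have h4 := Classical.choose_spec h3
      have h5 : Lim (Fam (Denumerable.ofNat (List ℕ) (encode L))) x k [] c := by
        rw [Denumerable.ofNat_encode]
        exact hc
      exact Lim.unique (mono_Fam _) h4 h5
  have h2 := Set.ncard_le_ncard h1 (Finset.finite_toSet _)
  rw [Set.ncard_coe_finset] at h2
  refine h2.trans (Finset.card_image_le.trans ?_)
  simp

/-- The extension of a finite sequence by zeros. -/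
def pad (s : List ℕ) (i : ℕ) : ℕ := s.getD i 0

/-- The slalom. -/
noncomputable def sl (z : ℕ → Bool) (s : List ℕ) : Finset ℕ :=
  (finite_gset (yy z (pad s)) (nn (3 * (s.length - 1) + 1))).toFinset

theorem card_sl (z : ℕ → Bool) (s : List ℕ) : (sl z s).card ≤ ww (s.length - 1) := by
  unfold sl
  rw [← Set.ncard_eq_toFinset_card _ (finite_gset _ _)]
  exact ncard_gset _ _

theorem control_sl (z : ℕ → Bool) (τ : ℕ → ℕ) : ∃ y, TLe z y ∧
    ∀ y', TLe y y' → TLe y' y → ∃ k₀, ∀ k ≥ k₀, τ k ≤ G y' k ∧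
      G y' k ∈ sl z ((List.range (k + 1)).map τ) := by
  refine ⟨yy z τ, tLe_real _ _ _, fun y' h1 h2 => ?_⟩
  obtain ⟨i, hi⟩ := gset_le_gset h1
  obtain ⟨j, hj⟩ := gset_le_gset h2
  refine ⟨i + j + 1, fun k hk => ⟨?_, ?_⟩⟩
  · have h3 := hi (3 * k - 1) (by omega)
    have h4 : 3 * k - 1 + 1 = 3 * k := by omega
    rw [h4] at h3
    refine (le_clk_yy z τ (by omega)).trans ?_
    exact csSup_le' fun c hc => le_csSup (finite_gset _ _).bddAbove (h3 hc)
  · have h3 := hi (3 * k - 1) (by omega)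
    have h4 : 3 * k - 1 + 1 = 3 * k := by omega
    rw [h4] at h3
    have h5 := hj (3 * k) (by omega)
    have h6 : (gset (yy z τ) (nn (3 * k - 1))).Nonempty := by
      refine ⟨tt τ 0, [], 0, ?_, Nat.zero_le _, lim_root z (tt τ) nn_strictMono 0⟩
      have h7 : encode ([] : List ℕ) = 0 := rfl
      have h8 := nn_strictMono.id_le (3 * k - 1)
      simp only [id] at h8
      rw [h7]
      omega
    have h7 : G y' k ∈ gset y' (nn (3 * k)) :=
      Nat.sSup_mem (h6.mono h3) (finite_gset _ _).bddAbove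
    have h8 : gset (yy z τ) (nn (3 * k + 1)) =
        gset (yy z (pad ((List.range (k + 1)).map τ))) (nn (3 * k + 1)) := by
      have h9 : ∀ i ≤ k, τ i = pad ((List.range (k + 1)).map τ) i := by
        intro i hi
        have h10 : i < k + 1 := by omega
        simp [pad, List.getD, h10]
      exact (gset_subset nn_strictMono (tt_congr h9)).antisymm
        (gset_subset nn_strictMono fun m hm => (tt_congr h9 m hm).symm)
    unfold sl
    rw [Set.Finite.mem_toFinset]
    simp only [List.length_map, List.length_range, Nat.add_sub_cancel]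
    rw [← h8]
    exact h5 h7

theorem join_cone (z : ℕ → ℕ → Bool) : ∃ w : ℕ → Bool, ∀ n, TLe (z n) w := by
  refine ⟨fun m => z m.unpair.1 m.unpair.2, fun n => ?_⟩
  have hf : Primrec fun m : ℕ => Nat.pair n m :=
    Primrec₂.natPair.comp (Primrec.const n) Primrec.id
  exact tLe_of_computable hf.to_comp fun m => by simp

/-- The Turing saturation of the preimage of `V`. -/
def satG (V : Set (ℕ → ℕ)) : Set (ℕ → Bool) := {x | ∃ x', TLe x' x ∧ TLe x x' ∧ G x' ∈ V}

theorem satG_invariant (V : Set (ℕ → ℕ)) : TuringInvariant (satG V) := by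
  rintro x y h1 h2 ⟨x', h3, h4, h5⟩
  exact ⟨x', TLe.trans h3 h1, TLe.trans h2 h4, h5⟩

theorem cover (V : ℕ → Set (ℕ → ℕ)) (hV : ∀ f, ∃ n, f ∈ V n)
    (h : ∀ n, Determined (satG (V n))) :
    ∃ n, ∃ H : List ℕ → Finset ℕ, (∀ s, (H s).card ≤ ww (s.length - 1)) ∧
      ∀ τ : ℕ → ℕ, ∃ v ∈ V n, ∀ᶠ k in atTop, τ k ≤ v k ∧
        v k ∈ H ((List.range (k + 1)).map τ) := by
  by_cases hI : ∃ n, WinsI (satG (V n))
  · obtain ⟨n, hn⟩ := hI
    obtain ⟨z, hz⟩ := cone_of_wins (b := 0) (by omega) (satG_invariant (V n)) hn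
    refine ⟨n, sl z, card_sl z, fun τ => ?_⟩
    obtain ⟨y, hy, hy'⟩ := control_sl z τ
    obtain ⟨x', h1, h2, h3⟩ := hz y hy
    obtain ⟨k₀, hk₀⟩ := hy' x' h2 h1
    exact ⟨G x', h3, eventually_atTop.2 ⟨k₀, hk₀⟩⟩
  · exfalso
    push Not at hI
    have h1 : ∀ n, ∃ z, ∀ u, TLe z u → u ∈ (satG (V n))ᶜ := fun n =>
      cone_of_wins (b := 1) (by omega) (compl_invariant (satG_invariant (V n)))
        ((h n).resolve_left (hI n))
    choose z hz using h1
    obtain ⟨w, hw⟩ := join_cone z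
    obtain ⟨n, hn⟩ := hV (G w)
    exact hz n w (hw n) ⟨w, TLe.refl w, TLe.refl w, hn⟩

end Pool.Agent.W885.TD
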