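import Pool.Agent.W885.TD.Gen

set_option autoImplicit false

namespace Pool.Agent.W885.TD

open Pool.Agent.Helper227
open Encodable

/-- A bound for the indices of compositions. -/
def cb (j n : ℕ) : ℕ :=
  (Finset.range (j + 1) ×ˢ Finset.range n).sup fun p =>
    encode (p.1 :: Denumerable.ofNat (List ℕ) p.2) + 1

theorem lt_cb {i j n : ℕ} {L : List ℕ} (hi : i ≤ j) (hL : encode L < n) :
    encode (i :: L) < cb j n := by
  have h1 : (i, encode L) ∈ Finset.range (j + 1) ×ˢ Finset.range n := by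
    simp only [Finset.mem_product, Finset.mem_range]
    omega
  have h2 := Finset.le_sup (f := fun p : ℕ × ℕ =>
    encode (p.1 :: Denumerable.ofNat (List ℕ) p.2) + 1) h1
  simp only [Denumerable.ofNat_encode] at h2
  unfold cb
  omega

/-- The scale. -/
def nn : ℕ → ℕ
  | 0 => 1
  | j + 1 => 2 * nn j + 3 + cb j (nn j)

theorem nn_strictMono : StrictMono nn := strictMono_nat_of_lt_succ fun j => by
  change nn j < 2 * nn j + 3 + cb j (nn j)
  omega

theorem nn_succ (j : ℕ) : 2 * nn j + 3 ≤ nn (j + 1) := by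
  change _ ≤ 2 * nn j + 3 + cb j (nn j)
  omega

theorem nn_comp {i j : ℕ} {L : List ℕ} (hi : i ≤ j) (hL : encode L < nn j) :
    encode (i :: L) < nn (j + 1) := by
  have := lt_cb hi hL
  change _ < 2 * nn j + 3 + cb j (nn j)
  omega

theorem clk_le_clk {x y : ℕ → Bool} (h : TLe x y) :
    ∃ i, ∀ j ≥ i, clk x (nn j) ≤ clk y (nn (j + 1)) := by
  obtain ⟨i, hi⟩ := exists_red h
  exact ⟨i, fun j hj => clk_mono hi (fun L hL => nn_comp hj hL)
    (nn_strictMono.monotone (by omega))⟩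

theorem exists_idx (h : ℕ) : ∃ j, h ≤ 2 * nn j + 2 := by
  refine ⟨h, ?_⟩
  have := nn_strictMono.id_le h
  simp only [id] at this
  omega

/-- The block of `h`. -/
def idx (h : ℕ) : ℕ := Nat.find (exists_idx h)

theorem idx_le {h j : ℕ} (hj : h ≤ 2 * nn j + 2) : idx h ≤ j := Nat.find_min' _ hj

theorem idx_next (j : ℕ) : idx (2 * nn j + 3) = j + 1 := by
  apply le_antisymm
  · apply idx_le
    have : nn j < nn (j + 1) := nn_strictMono (Nat.lt_succ_self j)
    omega
  · by_contra hc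
    have h1 : idx (2 * nn j + 3) ≤ j := by omega
    have h2 : 2 * nn j + 3 ≤ 2 * nn (idx (2 * nn j + 3)) + 2 := Nat.find_spec (exists_idx _)
    have h3 := nn_strictMono.monotone h1
    omega

/-- The root values made from the sequence `τ`. -/
def tt (τ : ℕ → ℕ) (h : ℕ) : ℕ := τ ((idx h + 1) / 3)

theorem tt_congr {τ τ' : ℕ → ℕ} {k : ℕ} (h : ∀ i ≤ k, τ i = τ' i) :
    ∀ m ≤ 2 * nn (3 * k + 1) + 2, tt τ m = tt τ' m := by
  intro m hm
  have h1 := idx_le hm
  exact h _ (by omega)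

theorem tt_next (τ : ℕ → ℕ) {k : ℕ} (hk : 1 ≤ k) : tt τ (2 * nn (3 * k - 2) + 3) = τ k := by
  unfold tt
  rw [idx_next]
  congr 1
  omega

/-- The clock on the scale. -/
noncomputable def G (x : ℕ → Bool) (k : ℕ) : ℕ := clk x (nn (3 * k))

/-- The real built from `τ` above `z`. -/
noncomputable def yy (z : ℕ → Bool) (τ : ℕ → ℕ) : ℕ → Bool := real z nn (tt τ)

/-- The bound. -/
noncomputable def hh (z : ℕ → Bool) (k : ℕ) (τ : ℕ → ℕ) : ℕ := clk (yy z τ) (nn (3 * k + 1))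

theorem hh_congr (z : ℕ → Bool) {k : ℕ} {τ τ' : ℕ → ℕ} (h : ∀ i ≤ k, τ i = τ' i) :
    hh z k τ = hh z k τ' :=
  clk_congr nn_strictMono (tt_congr h)

theorem le_clk_yy (z : ℕ → Bool) (τ : ℕ → ℕ) {k : ℕ} (hk : 1 ≤ k) :
    τ k ≤ clk (yy z τ) (nn (3 * k - 1)) := by
  have h1 := nn_succ (3 * k - 2)
  have h2 : 3 * k - 2 + 1 = 3 * k - 1 := by omega
  rw [h2] at h1
  have h3 := lim_root z (tt τ) nn_strictMono (2 * nn (3 * k - 2) + 3)
  rw [tt_next τ hk] at h3
  refine le_clk ?_ h1 h3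
  have h4 : encode ([] : List ℕ) = 0 := rfl
  rw [h4]
  omega

/-- The bounding function. -/
noncomputable def hb (z : ℕ → Bool) (t : ℕ) : ℕ :=
  (Finset.range (t + 1)).sup fun k => (Finset.univ : Finset (Fin (t + 1) → Fin (t + 1))).sup
    fun s => hh z k fun i => if hi : i < t + 1 then (s ⟨i, hi⟩ : ℕ) else 0

theorem hh_le_hb (z : ℕ → Bool) {τ : ℕ → ℕ} (hτ : StrictMono τ) (k : ℕ) :
    hh z k τ ≤ hb z (τ k) := by
  have h1 : k ≤ τ k := by simpa using hτ.id_le k
  let s : Fin (τ k + 1) → Fin (τ k + 1) := fun i =>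
    if h : (i : ℕ) ≤ k then ⟨τ i, by have := hτ.monotone h; omega⟩ else 0
  have h2 : hh z k τ =
      hh z k fun i => if hi : i < τ k + 1 then (s ⟨i, hi⟩ : ℕ) else 0 := by
    apply hh_congr
    intro i hi
    have h3 : i < τ k + 1 := by omega
    simp only [h3, dif_pos, s, hi]
  rw [h2]
  unfold hb
  refine le_trans ?_ (Finset.le_sup (b := k) (by simp only [Finset.mem_range]; omega))
  exact Finset.le_sup (f := fun s : Fin (τ k + 1) → Fin (τ k + 1) =>
    hh z k fun i => if hi : i < τ k + 1 then (s ⟨i, hi⟩ : ℕ) else 0) (Finset.mem_univ s)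

/-- The control theorem: every real `z` has a bounding function `h` such that every growing
sequence `τ` is followed, within the bound `h`, by the clocks of all members of some Turing
degree above `z`. -/
theorem control (z : ℕ → Bool) : ∃ h : ℕ → ℕ, ∀ τ : ℕ → ℕ, StrictMono τ → ∃ y, TLe z y ∧
    ∀ y', TLe y y' → TLe y' y → ∃ k₀, ∀ k ≥ k₀, τ k ≤ G y' k ∧ G y' k ≤ h (τ k) := by
  refine ⟨hb z, fun τ hτ => ⟨yy z τ, tLe_real _ _ _, fun y' h1 h2 => ?_⟩⟩
  obtain ⟨i, hi⟩ := clk_le_clk h1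
  obtain ⟨j, hj⟩ := clk_le_clk h2
  refine ⟨i + j + 1, fun k hk => ⟨?_, ?_⟩⟩
  · have h3 := hi (3 * k - 1) (by omega)
    have h4 : 3 * k - 1 + 1 = 3 * k := by omega
    rw [h4] at h3
    exact (le_clk_yy z τ (by omega)).trans h3
  · have h3 := hj (3 * k) (by omega)
    exact h3.trans (hh_le_hb z hτ k)

end Pool.Agent.W885.TD
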