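import Pool.Agent.W885.TD.Fun

set_option autoImplicit false

namespace Pool.Agent.W885.TD

open Pool.Agent.Helper227
open Encodable

/-- Conditions: partial functions on the nodes `(s, h)` (`s` a finite sequence, `h` the height),
total on the roots `([], h)` and finite off the roots. -/
structure Cnd where
  p : List ℕ → ℕ → Option ℕ
  fin : {u : List ℕ × ℕ | u.1 ≠ [] ∧ p u.1 u.2 ≠ none}.Finite
  root : ∀ h, p [] h ≠ none

/-- Extension: new children of old nodes get the value of the old node. -/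
def Le (q p : Cnd) : Prop :=
  (∀ s h v, p.p s h = some v → q.p s h = some v) ∧
  ∀ (s : List ℕ) (b h v w : ℕ), p.p (s ++ [b]) h = none → q.p (s ++ [b]) h = some v →
    p.p s (h + 1) = some w → v = w

theorem Le.refl (p : Cnd) : Le p p :=
  ⟨fun _ _ _ h => h, fun s b h v w h1 h2 _ => by rw [h1] at h2; cases h2⟩

theorem Le.trans {r q p : Cnd} (h : Le r q) (h' : Le q p) : Le r p := by
  refine ⟨fun s k v hv => h.1 _ _ _ (h'.1 _ _ _ hv), fun s b k v w h1 h2 h3 => ?_⟩
  cases hq : q.p (s ++ [b]) k with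
  | none => exact h.2 s b k v w hq h2 (h'.1 _ _ _ h3)
  | some v' =>
    have h4 := h.1 _ _ _ hq
    rw [h2] at h4
    cases h4
    exact h'.2 s b k v w h1 hq h3

/-- Agreement on the nodes of height at most `m`. -/
def Agree (m : ℕ) (p q : Cnd) : Prop := ∀ s, ∀ h ≤ m, p.p s h = q.p s h

theorem Agree.refl (m : ℕ) (p : Cnd) : Agree m p p := fun _ _ _ => rfl

theorem Agree.symm {m : ℕ} {p q : Cnd} (h : Agree m p q) : Agree m q p :=
  fun s k hk => (h s k hk).symm

theorem Agree.mono {m n : ℕ} {p q : Cnd} (h : Agree n p q) (hm : m ≤ n) : Agree m p q :=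
  fun s k hk => h s k (hk.trans hm)

/-- The low part of `q` together with the high part of `p`. -/
def mix (k : ℕ) (q p : Cnd) : Cnd where
  p := fun s h => if h ≤ k then q.p s h else p.p s h
  fin := by
    refine (q.fin.union p.fin).subset ?_
    rintro ⟨s, h⟩ ⟨h1, h2⟩
    simp only at h1 h2
    by_cases hk : h ≤ k
    · rw [if_pos hk] at h2
      exact Or.inl ⟨h1, h2⟩
    · rw [if_neg hk] at h2
      exact Or.inr ⟨h1, h2⟩
  root := by
    intro h
    by_cases hk : h ≤ k
    · simp only [if_pos hk]; exact q.root h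
    · simp only [if_neg hk]; exact p.root h

theorem agree_mix (k : ℕ) (q p : Cnd) : Agree k (mix k q p) q :=
  fun s h hk => by simp [mix, hk]

theorem mix_high {k : ℕ} (q p : Cnd) (s : List ℕ) {h : ℕ} (hk : k < h) :
    (mix k q p).p s h = p.p s h := by
  simp [mix, not_le.2 hk]

/-- The extension lemma. -/
theorem le_mix {k : ℕ} {p p' q : Cnd} (h : Agree (k + 1) p p') (hq : Le q p) :
    Le (mix k q p') p' := by
  refine ⟨fun s m v hv => ?_, fun s b m v w h1 h2 h3 => ?_⟩
  · by_cases hm : m ≤ k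
    · rw [agree_mix k q p' s m hm]
      rw [← h s m (by omega)] at hv
      exact hq.1 _ _ _ hv
    · rw [mix_high q p' s (by omega)]
      exact hv
  · by_cases hm : m ≤ k
    · rw [agree_mix k q p' _ m hm] at h2
      rw [← h _ m (by omega)] at h1
      rw [← h _ (m + 1) (by omega)] at h3
      exact hq.2 s b m v w h1 h2 h3
    · rw [mix_high q p' _ (by omega), h1] at h2
      cases h2

/-- The real coded by `z` and the leaves `f`. -/
def Y (z : ℕ → Bool) (f : List ℕ → ℕ) (n : ℕ) : Bool :=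
  if n % 2 = 0 then z (n / 2)
  else decide (f (Denumerable.ofNat (List ℕ) (n / 2).unpair.1) = (n / 2).unpair.2)

theorem tLe_Y (z : ℕ → Bool) (f : List ℕ → ℕ) : TLe z (Y z f) := by
  have hf : Primrec fun n : ℕ => 2 * n := Primrec.nat_mul.comp (Primrec.const 2) Primrec.id
  refine tLe_of_computable hf.to_comp fun n => ?_
  simp [Y]

theorem Y_leaf (z : ℕ → Bool) (f : List ℕ → ℕ) (a : List ℕ) (c : ℕ) :
    Y z f (2 * Nat.pair (encode a) c + 1) = true ↔ f a = c := by
  have h1 : (2 * Nat.pair (encode a) c + 1) % 2 ≠ 0 := by omega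
  have h2 : (2 * Nat.pair (encode a) c + 1) / 2 = Nat.pair (encode a) c := by omega
  rw [Y, if_neg h1, h2]
  simp

/-- the first bits depend on finitely many leaves. -/
theorem pre_Y_congr (z : ℕ → Bool) {f f' : List ℕ → ℕ} {t : ℕ}
    (h : ∀ i < t, f' (Denumerable.ofNat (List ℕ) (i / 2).unpair.1) =
      f (Denumerable.ofNat (List ℕ) (i / 2).unpair.1)) : pre (Y z f') t = pre (Y z f) t := by
  refine List.ext_getElem (by simp) fun i h1 h2 => ?_
  rw [getElem_pre, getElem_pre]
  have hi : i < t := by simpa using h1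
  unfold Y
  rw [h i hi]

/-- `p` decides the value of the functional. -/
def Dec (z : ℕ → Bool) (Φ : Fnl) (p : Cnd) (a : List ℕ) (c : ℕ) : Prop :=
  ∃ σ, Φ σ a = some c ∧ ∀ f : List ℕ → ℕ, (∀ s v, p.p s 0 = some v → f s = v) →
    pre (Y z f) σ.length = σ

/-- The forcing relation for iterated limits. -/
def F (z : ℕ → Bool) (Φ : Fnl) : ℕ → Cnd → List ℕ → ℕ → Prop
  | 0, p, a, c => Dec z Φ p a c
  | k + 1, p, a, c => ∃ B, ∀ b ≥ B, ∀ r, Le r p → ∃ r', Le r' r ∧ F z Φ k r' (a ++ [b]) c

variable {z : ℕ → Bool} {Φ : Fnl}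

theorem F.mono {k : ℕ} {p q : Cnd} {a : List ℕ} {c : ℕ} (h : F z Φ k p a c) (hq : Le q p) :
    F z Φ k q a c := by
  cases k with
  | zero =>
    obtain ⟨σ, h1, h2⟩ := h
    exact ⟨σ, h1, fun f hf => h2 f fun s v hv => hf s v (hq.1 _ _ _ hv)⟩
  | succ k =>
    obtain ⟨B, hB⟩ := h
    exact ⟨B, fun b hb r hr => hB b hb r (hr.trans hq)⟩

theorem F.congr {k : ℕ} {p q : Cnd} {a : List ℕ} {c : ℕ} (h : F z Φ k p a c)
    (hq : Agree (2 * k) p q) : F z Φ k q a c := by
  induction k generalizing p q a with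
  | zero =>
    obtain ⟨σ, h1, h2⟩ := h
    exact ⟨σ, h1, fun f hf => h2 f fun s v hv => hf s v (by rw [← hq s 0 (by omega)]; exact hv)⟩
  | succ k ih =>
    obtain ⟨B, hB⟩ := h
    refine ⟨B, fun b hb r' hr' => ?_⟩
    have h1 : Agree (2 * k + 1 + 1) q p := (hq.symm).mono (by omega)
    have h2 := le_mix h1 hr'
    have h3 : Agree (2 * k + 1) (mix (2 * k + 1) r' p) r' := agree_mix _ _ _
    obtain ⟨s, hs, hF⟩ := hB b hb _ h2
    have h4 : Le (mix (2 * k) s r') r' := le_mix h3 hs
    exact ⟨_, h4, ih hF (agree_mix (2 * k) s r').symm⟩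

theorem F.unique (hΦ : Mono Φ) {k : ℕ} {p : Cnd} {a : List ℕ} {c c' : ℕ} (h : F z Φ k p a c)
    (h' : F z Φ k p a c') : c = c' := by
  induction k generalizing p a with
  | zero =>
    obtain ⟨σ, h1, h2⟩ := h
    obtain ⟨τ, h3, h4⟩ := h'
    let f : List ℕ → ℕ := fun s => (p.p s 0).getD 0
    have hf : ∀ s v, p.p s 0 = some v → f s = v := by
      intro s v hv
      simp only [f, hv, Option.getD_some]
    have h5 := h2 f hf
    have h6 := h4 f hf
    have h7 : Lim Φ (Y z f) 0 a c := ⟨_, by rw [h5]; exact h1⟩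
    have h8 : Lim Φ (Y z f) 0 a c' := ⟨_, by rw [h6]; exact h3⟩
    exact h7.unique hΦ h8
  | succ k ih =>
    obtain ⟨B, hB⟩ := h
    obtain ⟨B', hB'⟩ := h'
    obtain ⟨r, hr, h1⟩ := hB (max B B') (le_max_left _ _) p (Le.refl p)
    obtain ⟨r', hr', h2⟩ := hB' (max B B') (le_max_right _ _) r hr
    exact ih (h1.mono hr') h2

/-- `p` decides the set `D` of conditions. -/
def Decides (D : Cnd → Prop) (p : Cnd) : Prop := D p ∨ ∀ r, Le r p → ¬ D r

theorem Decides.mono {D : Cnd → Prop} (hD : ∀ p q, Le q p → D p → D q) {p q : Cnd}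
    (h : Decides D p) (hq : Le q p) : Decides D q := by
  rcases h with h | h
  · exact Or.inl (hD _ _ hq h)
  · exact Or.inr fun r hr => h r (hr.trans hq)

theorem Decides.congr {D : Cnd → Prop} {m : ℕ} (hD : ∀ p q, Agree m p q → D p → D q) {p q : Cnd}
    (h : Decides D p) (hq : Agree (m + 1) p q) : Decides D q := by
  rcases h with h | h
  · exact Or.inl (hD _ _ (hq.mono (by omega)) h)
  · refine Or.inr fun r hr hr' => ?_
    exact h _ (le_mix hq.symm hr) (hD _ _ (agree_mix m r p).symm hr')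

/-- Extension with new nodes of height at most `m` only. -/
def LeH (m : ℕ) (q p : Cnd) : Prop := Le q p ∧ ∀ s, ∀ h > m, q.p s h = p.p s h

theorem LeH.refl (m : ℕ) (p : Cnd) : LeH m p p := ⟨Le.refl p, fun _ _ _ => rfl⟩

theorem LeH.trans {m : ℕ} {r q p : Cnd} (h : LeH m r q) (h' : LeH m q p) : LeH m r p :=
  ⟨h.1.trans h'.1, fun s k hk => (h.2 s k hk).trans (h'.2 s k hk)⟩

theorem exists_decides {D : Cnd → Prop} {m : ℕ} (hD : ∀ p q, Agree m p q → D p → D q) (p : Cnd) :
    ∃ q, LeH m q p ∧ Decides D q := by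
  by_cases h : ∃ r, Le r p ∧ D r
  · obtain ⟨r, hr, hr'⟩ := h
    exact ⟨mix m r p, ⟨le_mix (Agree.refl _ p) hr, fun s k hk => mix_high r p s hk⟩,
      Or.inl (hD _ _ (agree_mix m r p).symm hr')⟩
  · push Not at h
    exact ⟨p, LeH.refl m p, Or.inr h⟩

/-- Meeting finitely many requirements. -/
theorem exists_decides_all {ι : Type*} {D : ι → Cnd → Prop} {m : ℕ} {S : Set ι} (hS : S.Finite)
    (hD : ∀ i ∈ S, ∀ p q, Agree m p q → D i p → D i q)
    (hD' : ∀ i ∈ S, ∀ p q, Le q p → D i p → D i q) (p : Cnd) :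
    ∃ q, LeH m q p ∧ ∀ i ∈ S, Decides (D i) q := by
  induction S, hS using Set.Finite.induction_on with
  | empty => exact ⟨p, LeH.refl m p, fun i hi => absurd hi (Set.notMem_empty i)⟩
  | @insert a S _ _ ih =>
    obtain ⟨q, hq, h1⟩ := ih (fun i hi => hD i (Set.mem_insert_of_mem _ hi))
      (fun i hi => hD' i (Set.mem_insert_of_mem _ hi))
    obtain ⟨r, hr, h2⟩ := exists_decides (hD a (Set.mem_insert _ _)) q
    refine ⟨r, hr.trans hq, fun i hi => ?_⟩
    rcases Set.mem_insert_iff.1 hi with rfl | hi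
    · exact h2
    · exact (h1 i hi).mono (hD' i (Set.mem_insert_of_mem _ hi)) hr.1

/-- Every node can be added. -/
theorem exists_dom (p : Cnd) (s : List ℕ) (h : ℕ) : ∃ q, Le q p ∧ q.p s h ≠ none := by
  classical
  by_cases h1 : p.p s h = none
  · rcases List.eq_nil_or_concat' s with rfl | ⟨s', b, rfl⟩
    · exact absurd h1 (p.root h)
    · let w : ℕ := (p.p s' (h + 1)).getD 0
      let q : Cnd :=
        { p := fun s k => if s = s' ++ [b] ∧ k = h then some w else p.p s k
          fin := by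
            refine (p.fin.union (Set.finite_singleton (s' ++ [b], h))).subset ?_
            rintro ⟨s, k⟩ ⟨h2, h3⟩
            simp only at h2 h3
            by_cases h4 : s = s' ++ [b] ∧ k = h
            · right
              simp [h4.1, h4.2]
            · rw [if_neg h4] at h3
              exact Or.inl ⟨h2, h3⟩
          root := by
            intro k
            rw [if_neg (by simp)]
            exact p.root k }
      refine ⟨q, ⟨fun s k v hv => ?_, fun s c k v w' h2 h3 h4 => ?_⟩, ?_⟩
      · change (if s = s' ++ [b] ∧ k = h then some w else p.p s k) = some v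
        rw [if_neg]
        · exact hv
        · rintro ⟨rfl, rfl⟩
          rw [h1] at hv
          cases hv
      · change (if s ++ [c] = s' ++ [b] ∧ k = h then some w else p.p (s ++ [c]) k) = some v at h3
        split_ifs at h3 with h5
        · obtain ⟨h6, rfl⟩ := h5
          have h7 : s = s' ∧ c = b := by
            simpa using h6
          obtain ⟨rfl, rfl⟩ := h7
          simp only [Option.some.injEq] at h3
          simp only [w, h4, Option.getD_some] at h3
          exact h3.symm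
        · rw [h2] at h3
          cases h3
      · change (if s' ++ [b] = s' ++ [b] ∧ h = h then some w else p.p (s' ++ [b]) h) ≠ none
        simp
  · exact ⟨p, Le.refl p, h1⟩

end Pool.Agent.W885.TD
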