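import Pool.Agent.H685R3.Game

set_option autoImplicit false

namespace Pool.Agent.W885.TD

open Pool.Agent.Helper227
open Encodable

/-- Partial continuous functionals, given by their finite approximations. -/
abbrev Fnl := List Bool → List ℕ → Option ℕ

/-- Longer strings preserve values. -/
def Mono (Φ : Fnl) : Prop := ∀ (σ τ : List Bool) (a : List ℕ) (c : ℕ),
  σ <+: τ → Φ σ a = some c → Φ τ a = some c

open Classical in
/-- one value of a relation. -/
noncomputable def val (R : List Bool → List ℕ → ℕ → Prop) (σ : List Bool) (a : List ℕ) : Option ℕ :=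
  if h : ∃ c, R σ a c then some (Classical.choose h) else none

/-- The functional obtained from a relation: the value found first. -/
noncomputable def U (R : List Bool → List ℕ → ℕ → Prop) : Fnl := fun σ a =>
  (List.range (σ.length + 1)).findSome? fun s => val R (σ.take s) a

theorem val_spec {R : List Bool → List ℕ → ℕ → Prop} {σ : List Bool} {a : List ℕ} {c : ℕ}
    (h : val R σ a = some c) : R σ a c := by
  classical
  unfold val at h
  split_ifs at h with h1
  · have := Classical.choose_spec h1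
    simp only [Option.some.injEq] at h
    rwa [h] at this

theorem val_isSome {R : List Bool → List ℕ → ℕ → Prop} {σ : List Bool} {a : List ℕ} {c : ℕ}
    (h : R σ a c) : (val R σ a).isSome := by
  classical
  unfold val
  rw [dif_pos ⟨c, h⟩]
  rfl

theorem mono_U (R : List Bool → List ℕ → ℕ → Prop) : Mono (U R) := by
  intro σ τ a c h hc
  obtain ⟨ρ, rfl⟩ := h
  unfold U at hc ⊢
  have h1 : List.range ((σ ++ ρ).length + 1) =
      List.range (σ.length + 1) ++ (List.range ρ.length).map fun x => σ.length + 1 + x := by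
    rw [← List.range_add, List.length_append]
    congr 1
    omega
  rw [h1, List.findSome?_append]
  have h2 : (List.range (σ.length + 1)).findSome? (fun s => val R ((σ ++ ρ).take s) a) =
      (List.range (σ.length + 1)).findSome? fun s => val R (σ.take s) a := by
    have h3 : ∀ L : List ℕ, (∀ s ∈ L, s ≤ σ.length) →
        L.findSome? (fun s => val R ((σ ++ ρ).take s) a) =
          L.findSome? fun s => val R (σ.take s) a := by
      intro L
      induction L with
      | nil => intro _; rfl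
      | cons s L ih =>
        intro hL
        simp only [List.findSome?_cons]
        rw [List.take_append_of_le_length (hL s (by simp)), ih fun t ht => hL t (by simp [ht])]
    exact h3 _ fun s hs => by simpa [Nat.lt_succ_iff] using hs
  rw [h2, hc]
  rfl

theorem U_spec {R : List Bool → List ℕ → ℕ → Prop} {σ : List Bool} {a : List ℕ} {c : ℕ}
    (h : U R σ a = some c) : ∃ s ≤ σ.length, R (σ.take s) a c := by
  unfold U at h
  obtain ⟨s, hs, hc⟩ := List.exists_of_findSome?_eq_some h
  exact ⟨s, by simpa [Nat.lt_succ_iff] using hs, val_spec hc⟩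

theorem U_ne_none {R : List Bool → List ℕ → ℕ → Prop} {σ : List Bool} {a : List ℕ} {c : ℕ}
    (h : R σ a c) : ∃ c', U R σ a = some c' := by
  rw [← Option.ne_none_iff_exists']
  intro hn
  unfold U at hn
  rw [List.findSome?_eq_none_iff] at hn
  have h1 := hn σ.length (by simp)
  have h2 := val_isSome h
  rw [List.take_length] at h1
  rw [h1] at h2
  cases h2

/-- Iterated limits of the values of a functional. -/
def Lim (Φ : Fnl) (x : ℕ → Bool) : ℕ → List ℕ → ℕ → Prop
  | 0, a, c => ∃ s, Φ (pre x s) a = some c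
  | k + 1, a, c => ∃ B, ∀ b ≥ B, Lim Φ x k (a ++ [b]) c

theorem Lim.unique {Φ : Fnl} (hΦ : Mono Φ) {x : ℕ → Bool} {k : ℕ} {a : List ℕ} {c c' : ℕ}
    (h : Lim Φ x k a c) (h' : Lim Φ x k a c') : c = c' := by
  induction k generalizing a with
  | zero =>
    obtain ⟨s, hs⟩ := h
    obtain ⟨t, ht⟩ := h'
    have h1 := hΦ _ _ _ _ (pre_prefix x (le_max_left s t)) hs
    have h2 := hΦ _ _ _ _ (pre_prefix x (le_max_right s t)) ht
    rw [h1] at h2
    exact Option.some.inj h2
  | succ k ih =>
    obtain ⟨B, hB⟩ := h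
    obtain ⟨B', hB'⟩ := h'
    exact ih (hB (max B B') (le_max_left _ _)) (hB' (max B B') (le_max_right _ _))

theorem Lim.congr {Φ Ψ : Fnl} {x y : ℕ → Bool}
    (h : ∀ a c, Lim Φ x 0 a c ↔ Lim Ψ y 0 a c) (k : ℕ) (a : List ℕ) (c : ℕ) :
    Lim Φ x k a c ↔ Lim Ψ y k a c := by
  induction k generalizing a with
  | zero => exact h a c
  | succ k ih =>
    simp only [Lim]
    exact exists_congr fun B => forall_congr' fun b => imp_congr Iff.rfl (ih _)

/-- The relation `E` computes `x` from `y`. -/
def Computes (E : List Bool → ℕ → Bool → Prop) (y x : ℕ → Bool) : Prop :=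
  ∀ n b, x n = b ↔ ∃ s, E (pre y s) n b

/-- Composition of a functional with a reduction. -/
noncomputable def comp (Φ : Fnl) (E : List Bool → ℕ → Bool → Prop) : Fnl :=
  U fun σ a c => ∃ τ : List Bool, (∀ (i : ℕ) (h : i < τ.length), ∃ s ≤ σ.length,
    E (σ.take s) i τ[i]) ∧ Φ τ a = some c

theorem lim_comp {Φ : Fnl} (hΦ : Mono Φ) {E : List Bool → ℕ → Bool → Prop} {x y : ℕ → Bool}
    (h : Computes E y x) (k : ℕ) (a : List ℕ) (c : ℕ) :
    Lim (comp Φ E) y k a c ↔ Lim Φ x k a c := by
  refine Lim.congr (fun a c => ?_) k a c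
  -- soundness
  have h1 : ∀ s τ, (∀ (i : ℕ) (h : i < τ.length), ∃ t ≤ (pre y s).length,
      E ((pre y s).take t) i τ[i]) → pre x τ.length = τ := by
    intro s τ hτ
    refine List.ext_getElem (by simp) fun i h5 h6 => ?_
    rw [getElem_pre]
    obtain ⟨t, ht, hE⟩ := hτ i h6
    rw [take_pre _ _ _ (by simpa using ht)] at hE
    exact (h i τ[i]).2 ⟨t, hE⟩
  have h2 : ∀ s c, comp Φ E (pre y s) a = some c → Lim Φ x 0 a c := by
    intro s c hs
    obtain ⟨t, ht, τ, hτ, hc⟩ := U_spec hs
    have ht : t ≤ s := by simpa using ht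
    rw [take_pre _ _ _ ht] at hτ
    refine ⟨τ.length, ?_⟩
    rw [h1 t τ hτ]
    exact hc
  constructor
  · rintro ⟨s, hs⟩
    exact h2 s c hs
  · rintro ⟨s, hs⟩
    -- a long enough piece of `y` computes `pre x s`
    have h3 : ∀ n : ℕ, ∃ t, ∀ i < n, ∃ t' ≤ t, E (pre y t') i (x i) := by
      intro n
      induction n with
      | zero => exact ⟨0, fun i hi => absurd hi (Nat.not_lt_zero _)⟩
      | succ n ih =>
        obtain ⟨t, ht⟩ := ih
        obtain ⟨t', ht'⟩ := (h n (x n)).1 rfl
        refine ⟨max t t', fun i hi => ?_⟩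
        rcases Nat.lt_succ_iff_lt_or_eq.1 hi with hi | rfl
        · obtain ⟨t'', h4, h5⟩ := ht i hi
          exact ⟨t'', h4.trans (le_max_left _ _), h5⟩
        · exact ⟨t', le_max_right _ _, ht'⟩
    obtain ⟨t, ht⟩ := h3 s
    have h4 : ∃ c', comp Φ E (pre y t) a = some c' := by
      refine U_ne_none (c := c) ⟨pre x s, fun i hi => ?_, hs⟩
      have hi' : i < s := by simpa using hi
      obtain ⟨t', h5, h6⟩ := ht i hi'
      refine ⟨t', by simpa using h5, ?_⟩
      rw [take_pre _ _ _ h5, getElem_pre]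
      exact h6
    obtain ⟨c', hc'⟩ := h4
    have h5 := h2 t c' hc'
    have h6 : c' = c := Lim.unique hΦ (k := 0) h5 ⟨s, hs⟩
    exact ⟨t, h6 ▸ hc'⟩

/-- The `i`-th reduction. -/
def red (i : ℕ) (σ : List Bool) (n : ℕ) (b : Bool) : Prop :=
  ((Denumerable.ofNat Nat.Partrec.Code i).eval (encode (σ, n, b))).Dom

theorem exists_red {x y : ℕ → Bool} (h : TLe x y) : ∃ i, Computes (red i) y x := by
  obtain ⟨E, hE, -, eE⟩ := tLe_iff.1 h
  obtain ⟨c, hc⟩ := Nat.Partrec.Code.exists_code.1 hE.re
  refine ⟨encode c, fun n b => ?_⟩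
  rw [eE]
  refine exists_congr fun s => ?_
  simp only [red, Denumerable.ofNat_encode]
  rw [hc]
  simp [Part.assert]

/-- The functional reading the leaves. -/
noncomputable def rd : Fnl := U fun σ a c => σ[2 * Nat.pair (encode a) c + 1]? = some true

/-- The countable family of functionals. -/
noncomputable def Fam : List ℕ → Fnl
  | [] => rd
  | i :: L => comp (Fam L) (red i)

theorem mono_Fam (L : List ℕ) : Mono (Fam L) := by
  cases L with
  | nil => exact mono_U _
  | cons i L => exact mono_U _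

theorem lim_Fam {i : ℕ} {x y : ℕ → Bool} (h : Computes (red i) y x) (L : List ℕ) (k : ℕ)
    (a : List ℕ) (c : ℕ) : Lim (Fam (i :: L)) y k a c ↔ Lim (Fam L) x k a c :=
  lim_comp (mono_Fam L) h k a c

/-- The iterated limits of the first `N` functionals. -/
def gset (x : ℕ → Bool) (N : ℕ) : Set ℕ :=
  {c | ∃ L k, encode L < N ∧ k ≤ N ∧ Lim (Fam L) x k [] c}

theorem finite_gset (x : ℕ → Bool) (N : ℕ) : (gset x N).Finite := by
  classical
  have h1 : ({p : List ℕ × ℕ | encode p.1 < N ∧ p.2 ≤ N}).Finite := by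
    have h2 : ({L : List ℕ | encode L < N}).Finite :=
      (Set.finite_lt_nat N).preimage encode_injective.injOn
    exact (h2.prod (Set.finite_le_nat N)).subset fun p hp => hp
  let f : List ℕ × ℕ → ℕ := fun p =>
    if h : ∃ c, Lim (Fam p.1) x p.2 [] c then Classical.choose h else 0
  refine (h1.image f).subset ?_
  rintro c ⟨L, k, hL, hk, hc⟩
  refine ⟨(L, k), ⟨hL, hk⟩, ?_⟩
  have h3 : ∃ c, Lim (Fam L) x k [] c := ⟨c, hc⟩
  change (if h : ∃ c, Lim (Fam L) x k [] c then Classical.choose h else 0) = c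
  rw [dif_pos h3]
  exact Lim.unique (mono_Fam L) (Classical.choose_spec h3) hc

/-- The clock. -/
noncomputable def clk (x : ℕ → Bool) (N : ℕ) : ℕ := sSup (gset x N)

theorem le_clk {x : ℕ → Bool} {N : ℕ} {L : List ℕ} {k c : ℕ} (hL : encode L < N) (hk : k ≤ N)
    (hc : Lim (Fam L) x k [] c) : c ≤ clk x N :=
  le_csSup (finite_gset x N).bddAbove ⟨L, k, hL, hk, hc⟩

theorem clk_le {x : ℕ → Bool} {N M : ℕ} (h : ∀ L k c, encode L < N → k ≤ N →
    Lim (Fam L) x k [] c → c ≤ M) : clk x N ≤ M :=
  csSup_le' fun _ ⟨L, k, hL, hk, hc⟩ => h L k _ hL hk hc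

theorem clk_mono {x y : ℕ → Bool} {i N M : ℕ} (h : Computes (red i) y x)
    (hM : ∀ L : List ℕ, encode L < N → encode (i :: L) < M) (hN : N ≤ M) : clk x N ≤ clk y M :=
  clk_le fun L k c hL hk hc => le_clk (hM L hL) (hk.trans hN) ((lim_Fam h L k [] c).2 hc)

end Pool.Agent.W885.TD
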