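import Pool.Agent.W885.TD.Force

set_option autoImplicit false

namespace Pool.Agent.W885.TD

open Pool.Agent.Helper227
open Encodable

/-- Indices of requirements. -/
abbrev Req := (List ℕ × ℕ) ⊕ ((List ℕ × ℕ × List ℕ × ℕ) ⊕
  ((List ℕ × ℕ × List ℕ × ℕ × ℕ) ⊕ (List ℕ × ℕ)))

/-- The sets of conditions to be decided. -/
def D (z : ℕ → Bool) : Req → Cnd → Prop
  | .inl (L, k) => fun p => ∃ c, F z (Fam L) k p [] c
  | .inr (.inl (L, k, a, c)) => fun p => F z (Fam L) k p a c
  | .inr (.inr (.inl (L, k, a, c, B))) => fun p =>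
      ∃ b ≥ B, ∀ r, Le r p → ¬ F z (Fam L) k r (a ++ [b]) c
  | .inr (.inr (.inr (s, h))) => fun p => p.p s h ≠ none

/-- The level of a requirement. -/
def lv : Req → ℕ
  | .inl (_, k) => 2 * k
  | .inr (.inl (_, k, _, _)) => 2 * k
  | .inr (.inr (.inl (_, k, _, _, _))) => 2 * k + 1
  | .inr (.inr (.inr (_, h))) => h

theorem D_mono (z : ℕ → Bool) (i : Req) (p q : Cnd) (h : Le q p) (hp : D z i p) : D z i q := by
  rcases i with ⟨L, k⟩ | ⟨L, k, a, c⟩ | ⟨L, k, a, c, B⟩ | ⟨s, m⟩
  · obtain ⟨c, hc⟩ := hp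
    exact ⟨c, hc.mono h⟩
  · exact F.mono hp h
  · obtain ⟨b, hb, h1⟩ := hp
    exact ⟨b, hb, fun r hr => h1 r (hr.trans h)⟩
  · change p.p s m ≠ none at hp
    change q.p s m ≠ none
    obtain ⟨v, hv⟩ := Option.ne_none_iff_exists'.1 hp
    rw [h.1 _ _ _ hv]
    simp

theorem D_congr (z : ℕ → Bool) (i : Req) {m : ℕ} (hm : lv i ≤ m) (p q : Cnd) (h : Agree m p q)
    (hp : D z i p) : D z i q := by
  rcases i with ⟨L, k⟩ | ⟨L, k, a, c⟩ | ⟨L, k, a, c, B⟩ | ⟨s, n⟩
  · obtain ⟨c, hc⟩ := hp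
    exact ⟨c, hc.congr (h.mono hm)⟩
  · exact F.congr hp (h.mono hm)
  · obtain ⟨b, hb, h1⟩ := hp
    refine ⟨b, hb, fun r hr hF => ?_⟩
    have h2 : Agree (2 * k + 1) q p := (h.mono hm).symm
    exact h1 _ (le_mix h2 hr) (hF.congr (agree_mix (2 * k) r p).symm)
  · change p.p s n ≠ none at hp
    change q.p s n ≠ none
    rwa [← h s n hm]

/-- Finite parts of conditions, off the roots. -/
structure Pt where
  p : List ℕ → ℕ → Option ℕ
  fin : {u : List ℕ × ℕ | u.1 ≠ [] ∧ p u.1 u.2 ≠ none}.Finite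

instance : Nonempty Pt := ⟨⟨fun _ _ => none, by simp⟩⟩

/-- The condition with root values `T` and finite part `r`. -/
def cond (T : ℕ → ℕ) (r : Pt) : Cnd where
  p := fun s h => if s = [] then some (T h) else r.p s h
  fin := by
    refine r.fin.subset ?_
    rintro ⟨s, h⟩ ⟨h1, h2⟩
    simp only at h1 h2
    rw [if_neg h1] at h2
    exact ⟨h1, h2⟩
  root := by
    intro h
    simp

theorem cond_nil (T : ℕ → ℕ) (r : Pt) (h : ℕ) : (cond T r).p [] h = some (T h) := by
  simp [cond]

theorem cond_ne (T : ℕ → ℕ) (r : Pt) {s : List ℕ} (hs : s ≠ []) (h : ℕ) :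
    (cond T r).p s h = r.p s h := by
  simp [cond, hs]

theorem eq_cond {T : ℕ → ℕ} {r : Pt} {q : Cnd} (h : Le q (cond T r)) : ∃ r', q = cond T r' := by
  refine ⟨⟨q.p, q.fin⟩, ?_⟩
  have h1 : q.p = (cond T ⟨q.p, q.fin⟩).p := by
    funext s k
    by_cases hs : s = []
    · subst hs
      rw [cond_nil]
      exact h.1 _ _ _ (cond_nil T r k)
    · rw [cond_ne _ _ hs]
  cases q
  simp only at h1
  unfold cond
  congr

theorem leH_transfer {T T' : ℕ → ℕ} {r r' : Pt} {m : ℕ} (hT : ∀ h ≤ m + 1, T h = T' h)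
    (h : LeH m (cond T r') (cond T r)) : LeH m (cond T' r') (cond T' r) := by
  have h0 : ∀ s ≠ [], ∀ k, (cond T' r').p s k = (cond T r').p s k := fun s hs k => by
    rw [cond_ne _ _ hs, cond_ne _ _ hs]
  have h0' : ∀ s ≠ [], ∀ k, (cond T' r).p s k = (cond T r).p s k := fun s hs k => by
    rw [cond_ne _ _ hs, cond_ne _ _ hs]
  refine ⟨⟨fun s k v hv => ?_, fun s b k v w h1 h2 h3 => ?_⟩, fun s k hk => ?_⟩
  · by_cases hs : s = []
    · subst hs
      rw [cond_nil] at hv ⊢
      exact hv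
    · rw [h0 s hs]
      rw [h0' s hs] at hv
      exact h.1.1 _ _ _ hv
  · rw [h0' _ (by simp)] at h1
    rw [h0 _ (by simp)] at h2
    by_cases hs : s = []
    · subst hs
      rw [cond_nil] at h3
      have hk : k ≤ m := by
        by_contra hc
        have := h.2 ([] ++ [b]) k (by omega)
        rw [h1, h2] at this
        cases this
      refine h.1.2 [] b k v w h1 h2 ?_
      rw [cond_nil, hT (k + 1) (by omega)]
      exact h3
    · rw [h0' s hs] at h3
      exact h.1.2 s b k v w h1 h2 h3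
  · by_cases hs : s = []
    · subst hs
      rw [cond_nil, cond_nil]
    · rw [h0 s hs, h0' s hs]
      exact h.2 s k hk

theorem agree_cond {T T' : ℕ → ℕ} {r : Pt} {m : ℕ} (hT : ∀ h ≤ m, T h = T' h) :
    Agree m (cond T r) (cond T' r) := by
  intro s k hk
  by_cases hs : s = []
  · subst hs
    rw [cond_nil, cond_nil, hT k hk]
  · rw [cond_ne _ _ hs, cond_ne _ _ hs]

/-- The requirements treated at stage `j`. -/
def R (N : ℕ → ℕ) (j : ℕ) : Set Req :=
  {i | (encode i < j ∨ ∃ L k, i = .inl (L, k) ∧ encode L < N j ∧ k ≤ N j) ∧ lv i ≤ 2 * N j + 1}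

theorem finite_R (N : ℕ → ℕ) (j : ℕ) : (R N j).Finite := by
  have h1 : ({i : Req | encode i < j}).Finite :=
    (Set.finite_lt_nat j).preimage encode_injective.injOn
  have h2 : ({L : List ℕ | encode L < N j}).Finite :=
    (Set.finite_lt_nat (N j)).preimage encode_injective.injOn
  have h3 := (h2.prod (Set.finite_le_nat (N j))).image (fun p => (Sum.inl p : Req))
  refine (h1.union h3).subset ?_
  rintro i ⟨h | ⟨L, k, rfl, hL, hk⟩, -⟩
  · exact Or.inl h
  · exact Or.inr ⟨(L, k), ⟨hL, hk⟩, rfl⟩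

/-- The candidates at stage `j`. -/
def Cand (z : ℕ → Bool) (N : ℕ → ℕ) (T : ℕ → ℕ) (j : ℕ) (r r' : Pt) : Prop :=
  LeH (2 * N j + 1) (cond T r') (cond T r) ∧ ∀ i ∈ R N j, Decides (D z i) (cond T r')

theorem exists_cand (z : ℕ → Bool) (N : ℕ → ℕ) (T : ℕ → ℕ) (j : ℕ) (r : Pt) :
    ∃ r', Cand z N T j r r' := by
  obtain ⟨q, hq, h1⟩ := exists_decides_all (D := D z) (m := 2 * N j + 1) (finite_R N j)
    (fun i hi p q h => D_congr z i hi.2 p q h) (fun i _ p q h => D_mono z i p q h) (cond T r)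
  obtain ⟨r', rfl⟩ := eq_cond hq.1
  exact ⟨r', hq, h1⟩

theorem cand_transfer {z : ℕ → Bool} {N : ℕ → ℕ} {T T' : ℕ → ℕ} {j : ℕ} {r r' : Pt}
    (hT : ∀ h ≤ 2 * N j + 2, T h = T' h) (h : Cand z N T j r r') : Cand z N T' j r r' :=
  ⟨leH_transfer hT h.1, fun i hi => (h.2 i hi).congr
    (fun p q h => D_congr z i hi.2 p q h) (agree_cond hT)⟩

/-- The generic sequence. -/
noncomputable def seq (z : ℕ → Bool) (N : ℕ → ℕ) (T : ℕ → ℕ) : ℕ → Pt
  | 0 => ⟨fun _ _ => none, by simp⟩
  | j + 1 => Classical.epsilon (Cand z N T j (seq z N T j))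

theorem seq_spec (z : ℕ → Bool) (N : ℕ → ℕ) (T : ℕ → ℕ) (j : ℕ) :
    Cand z N T j (seq z N T j) (seq z N T (j + 1)) :=
  Classical.epsilon_spec (exists_cand z N T j (seq z N T j))

theorem seq_congr {z : ℕ → Bool} {N : ℕ → ℕ} (hN : Monotone N) {T T' : ℕ → ℕ} {j : ℕ}
    (hT : ∀ h ≤ 2 * N j + 2, T h = T' h) : ∀ i ≤ j + 1, seq z N T i = seq z N T' i := by
  intro i
  induction i with
  | zero => intro _; rfl
  | succ i ih =>
    intro hi
    have h1 := ih (by omega)
    have h2 : ∀ h ≤ 2 * N i + 2, T h = T' h := fun h hh => hT h (by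
      have := hN (show i ≤ j by omega)
      omega)
    change Classical.epsilon (Cand z N T i (seq z N T i)) =
      Classical.epsilon (Cand z N T' i (seq z N T' i))
    rw [← h1]
    congr 1
    funext r'
    exact propext ⟨cand_transfer h2, cand_transfer fun h hh => (h2 h hh).symm⟩

section

variable (z : ℕ → Bool) (N : ℕ → ℕ) (T : ℕ → ℕ)

/-- The `j`-th condition. -/
noncomputable def P (j : ℕ) : Cnd := cond T (seq z N T j)

theorem P_le {i j : ℕ} (h : i ≤ j) : Le (P z N T j) (P z N T i) := by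
  induction j, h using Nat.le_induction with
  | base => exact Le.refl _
  | succ j _ ih => exact (seq_spec z N T j).1.1.trans ih

variable {N} in
theorem P_decides (hN : StrictMono N) (i : Req) : ∃ j, ∀ j' ≥ j, Decides (D z i) (P z N T j') := by
  refine ⟨encode i + lv i + 2, fun j' hj' => ?_⟩
  obtain ⟨j, rfl⟩ : ∃ j, j' = j + 1 := ⟨j' - 1, by omega⟩
  refine (seq_spec z N T j).2 i ⟨Or.inl (by omega), ?_⟩
  have := hN.id_le j
  simp only [id] at this
  omega

variable {N} in
theorem P_total (hN : StrictMono N) (s : List ℕ) (h : ℕ) :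
    ∃ j v, (P z N T j).p s h = some v := by
  obtain ⟨j, hj⟩ := P_decides z T hN (.inr (.inr (.inr (s, h))))
  rcases hj j le_rfl with h1 | h1
  · exact ⟨j, Option.ne_none_iff_exists'.1 h1⟩
  · obtain ⟨q, hq, h2⟩ := exists_dom (P z N T j) s h
    exact absurd h2 (h1 q hq)

theorem P_unique {i j : ℕ} {s : List ℕ} {h v w : ℕ} (h1 : (P z N T i).p s h = some v)
    (h2 : (P z N T j).p s h = some w) : v = w := by
  have h3 := (P_le z N T (le_max_left i j)).1 _ _ _ h1
  have h4 := (P_le z N T (le_max_right i j)).1 _ _ _ h2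
  rw [h3] at h4
  exact Option.some.inj h4

open Classical in
/-- The leaf values. -/
noncomputable def leaf (s : List ℕ) : ℕ :=
  if h : ∃ v j, (P z N T j).p s 0 = some v then Classical.choose h else 0

theorem leaf_eq {j : ℕ} {s : List ℕ} {v : ℕ} (h : (P z N T j).p s 0 = some v) :
    leaf z N T s = v := by
  have h1 : ∃ v j, (P z N T j).p s 0 = some v := ⟨v, j, h⟩
  rw [leaf, dif_pos h1]
  obtain ⟨j', h2⟩ := Classical.choose_spec h1
  exact P_unique z N T h2 h

/-- The real built from `T`. -/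
noncomputable def real : ℕ → Bool := Y z (leaf z N T)

theorem tLe_real : TLe z (real z N T) := tLe_Y _ _

variable {N} in
theorem lim_rd (hN : StrictMono N) {h j v : ℕ} {s : List ℕ} (hv : (P z N T j).p s h = some v) :
    Lim (Fam []) (real z N T) h s v := by
  induction h generalizing s j v with
  | zero =>
    have h1 := leaf_eq z N T hv
    let pos := 2 * Nat.pair (encode s) v + 1
    have h2 : (pre (real z N T) (pos + 1))[pos]? = some true := by
      rw [pre_getElem? _ _ _ (by omega)]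
      exact congrArg some ((Y_leaf _ _ _ _).2 h1)
    obtain ⟨c, hc⟩ := U_ne_none (R := fun σ a c => σ[2 * Nat.pair (encode a) c + 1]? = some true)
      (σ := pre (real z N T) (pos + 1)) (a := s) (c := v) h2
    refine ⟨pos + 1, ?_⟩
    change U _ _ _ = _
    rw [hc]
    obtain ⟨t, ht, h3⟩ := U_spec hc
    rw [take_pre _ _ _ (by simpa using ht)] at h3
    have h4 : 2 * Nat.pair (encode s) c + 1 < t := by
      by_contra hcon
      rw [pre_getElem?_none _ _ _ (by omega)] at h3
      cases h3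
    rw [pre_getElem? _ _ _ h4] at h3
    have h5 := (Y_leaf z (leaf z N T) s c).1 (Option.some.inj h3)
    rw [← h5, h1]
  | succ h ih =>
    -- only finitely many children are in the domain of `P j`
    have h1 : ∃ B, ∀ b ≥ B, (P z N T j).p (s ++ [b]) h = none := by
      have h2 : {b : ℕ | (P z N T j).p (s ++ [b]) h ≠ none}.Finite := by
        refine Set.Finite.preimage (f := fun b : ℕ => (s ++ [b], h)) ?_ (P z N T j).fin |>.subset ?_
        · intro b _ b' _ hb
          simpa using hb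
        · intro b hb
          exact ⟨by simp, hb⟩
      obtain ⟨B, hB⟩ := h2.bddAbove
      refine ⟨B + 1, fun b hb => ?_⟩
      by_contra hc
      have := hB hc
      omega
    obtain ⟨B, hB⟩ := h1
    refine ⟨B, fun b hb => ?_⟩
    obtain ⟨i, v', hv'⟩ := P_total z T hN (s ++ [b]) h
    have h3 := (P_le z N T (le_max_left i j)).1 _ _ _ hv'
    have h4 := (P_le z N T (le_max_right i j)).2 s b h v' v (hB b hb) h3 hv
    subst h4
    exact ih hv'

variable {N} in
theorem lim_root (hN : StrictMono N) (h : ℕ) : Lim (Fam []) (real z N T) h [] (T h) :=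
  lim_rd z T hN (j := 0) (cond_nil T _ h)

variable {N} in
/-- The truth lemma. -/
theorem truth (hN : StrictMono N) (L : List ℕ) (k : ℕ) (a : List ℕ) (c : ℕ) :
    Lim (Fam L) (real z N T) k a c ↔ ∃ j, F z (Fam L) k (P z N T j) a c := by
  induction k generalizing a with
  | zero =>
    constructor
    · rintro ⟨t, ht⟩
      have h1 : ∀ n, ∃ j, ∀ i < n, ∃ v,
          (P z N T j).p (Denumerable.ofNat (List ℕ) (i / 2).unpair.1) 0 = some v := by
        intro n
        induction n with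
        | zero => exact ⟨0, fun i hi => absurd hi (Nat.not_lt_zero _)⟩
        | succ n ih =>
          obtain ⟨j, hj⟩ := ih
          obtain ⟨j', v, hv⟩ := P_total z T hN (Denumerable.ofNat (List ℕ) (n / 2).unpair.1) 0
          refine ⟨max j j', fun i hi => ?_⟩
          rcases Nat.lt_succ_iff_lt_or_eq.1 hi with hi | rfl
          · obtain ⟨v', hv'⟩ := hj i hi
            exact ⟨v', (P_le z N T (le_max_left _ _)).1 _ _ _ hv'⟩
          · exact ⟨v, (P_le z N T (le_max_right _ _)).1 _ _ _ hv⟩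
      obtain ⟨j, hj⟩ := h1 t
      refine ⟨j, pre (real z N T) t, ht, fun f hf => ?_⟩
      rw [length_pre]
      refine pre_Y_congr z fun i hi => ?_
      obtain ⟨v, hv⟩ := hj i hi
      rw [hf _ _ hv, leaf_eq z N T hv]
    · rintro ⟨j, σ, h1, h2⟩
      refine ⟨σ.length, ?_⟩
      have := h2 (leaf z N T) fun s v hv => leaf_eq z N T hv
      change Fam L (pre (Y z (leaf z N T)) σ.length) a = some c
      rw [this]
      exact h1
  | succ k ih =>
    constructor
    · rintro ⟨B, hB⟩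
      obtain ⟨j, hj⟩ := P_decides z T hN (.inr (.inr (.inl (L, k, a, c, B))))
      rcases hj j le_rfl with h1 | h1
      · obtain ⟨b, hb, h2⟩ := h1
        obtain ⟨i, hi⟩ := (ih (a ++ [b])).1 (hB b hb)
        exact absurd (hi.mono (P_le z N T (le_max_left i j)))
          (h2 _ (P_le z N T (le_max_right i j)))
      · refine ⟨j, B, fun b hb r hr => ?_⟩
        have h2 := h1 r hr
        by_contra h3
        push Not at h3
        exact h2 ⟨b, hb, h3⟩
    · rintro ⟨j, B, hB⟩
      refine ⟨B, fun b hb => ?_⟩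
      obtain ⟨i, hi⟩ := P_decides z T hN (.inr (.inl (L, k, a ++ [b], c)))
      refine (ih (a ++ [b])).2 ⟨max i j, ?_⟩
      rcases hi (max i j) (le_max_left _ _) with h1 | h1
      · exact h1
      · obtain ⟨r', hr', h2⟩ := hB b hb _ (P_le z N T (le_max_right i j))
        exact absurd h2 (h1 r' hr')

end

theorem gset_subset {z : ℕ → Bool} {N : ℕ → ℕ} (hN : StrictMono N) {T T' : ℕ → ℕ} {j : ℕ}
    (hT : ∀ h ≤ 2 * N j + 2, T h = T' h) :
    gset (real z N T) (N j) ⊆ gset (real z N T') (N j) := by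
  rintro c ⟨L, k, hL, hk, hc⟩
  obtain ⟨i, hi⟩ := (truth z T hN L k [] c).1 hc
  have h1 : Decides (D z (.inl (L, k))) (P z N T (j + 1)) :=
    (seq_spec z N T j).2 _ ⟨Or.inr ⟨L, k, rfl, hL, hk⟩, by simp only [lv]; omega⟩
  have h2 := hi.mono (P_le z N T (le_max_left i (j + 1)))
  have h3 : F z (Fam L) k (P z N T (j + 1)) [] c := by
    rcases h1 with ⟨c', h1⟩ | h1
    · have h4 := h1.mono (P_le z N T (le_max_right i (j + 1)))
      have h5 := F.unique (mono_Fam L) h4 h2
      exact h5 ▸ h1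
    · exact absurd ⟨c, h2⟩ (h1 _ (P_le z N T (le_max_right i (j + 1))))
  have h4 : Agree (2 * k) (P z N T (j + 1)) (P z N T' (j + 1)) := by
    unfold P
    rw [seq_congr (z := z) hN.monotone hT (j + 1) le_rfl]
    exact agree_cond fun h hh => hT h (by omega)
  exact ⟨L, k, hL, hk, (truth z T' hN L k [] c).2 ⟨j + 1, h3.congr h4⟩⟩

/-- The clock of the real at `N j` depends on few root values only. -/
theorem clk_congr {z : ℕ → Bool} {N : ℕ → ℕ} (hN : StrictMono N) {T T' : ℕ → ℕ} {j : ℕ}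
    (hT : ∀ h ≤ 2 * N j + 2, T h = T' h) :
    clk (real z N T) (N j) = clk (real z N T') (N j) := by
  unfold clk
  rw [(gset_subset hN hT).antisymm (gset_subset hN fun h hh => (hT h hh).symm)]

end Pool.Agent.W885.TD
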