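import Pool.Agent.W885.TD.Cat

set_option autoImplicit false

namespace Pool.Agent.W885.TD

open Pool.Agent.Helper227 Pool.Agent.H685R3
open Encodable Filter Topology

/-! ### Measurability -/

theorem measurableSet_cyl (σ : List Bool) : MeasurableSet (cyl σ) :=
  (isOpen_cyl σ).measurableSet

theorem measurableSet_pre (S : Set (List Bool)) (s : ℕ) :
    MeasurableSet {x : ℕ → Bool | pre x s ∈ S} := by
  have h1 : {x : ℕ → Bool | pre x s ∈ S} = ⋃ σ ∈ {σ : List Bool | σ ∈ S ∧ σ.length = s}, cyl σ := by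
    ext x
    simp only [Set.mem_ofPred_eq, Set.mem_iUnion, exists_prop]
    constructor
    · intro h
      exact ⟨pre x s, ⟨h, by simp⟩, mem_cyl_pre x s⟩
    · rintro ⟨σ, ⟨h, rfl⟩, hx⟩
      rw [mem_cyl_iff.1 hx]
      exact h
  rw [h1]
  exact MeasurableSet.biUnion (Set.to_countable _) fun σ _ => measurableSet_cyl σ

theorem measurableSet_lim (Φ : Fnl) (k : ℕ) (a : List ℕ) (c : ℕ) :
    MeasurableSet {x : ℕ → Bool | Lim Φ x k a c} := by
  induction k generalizing a with
  | zero =>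
    have h1 : {x : ℕ → Bool | Lim Φ x 0 a c} = ⋃ s, {x | pre x s ∈ {σ | Φ σ a = some c}} := by
      ext x
      simp [Lim]
    rw [h1]
    exact MeasurableSet.iUnion fun s => measurableSet_pre _ s
  | succ k ih =>
    have h1 : {x : ℕ → Bool | Lim Φ x (k + 1) a c} =
        ⋃ B, ⋂ b, ⋂ (_ : b ≥ B), {x | Lim Φ x k (a ++ [b]) c} := by
      ext x
      simp [Lim]
    rw [h1]
    exact MeasurableSet.iUnion fun B => MeasurableSet.iInter fun b =>
      MeasurableSet.iInter fun _ => ih _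

theorem measurable_G (k : ℕ) : Measurable fun x : ℕ → Bool => G x k := by
  refine measurable_of_Iic fun M => ?_
  have h1 : (fun x : ℕ → Bool => G x k) ⁻¹' Set.Iic M =
      (⋃ (L : List ℕ), ⋃ (j : ℕ), ⋃ (c : ℕ), ⋃ (_ : encode L < nn (3 * k) ∧ j ≤ nn (3 * k) ∧ M < c),
        {x : ℕ → Bool | Lim (Fam L) x j [] c})ᶜ := by
    ext x
    simp only [Set.mem_preimage, Set.mem_Iic, Set.mem_compl_iff, Set.mem_iUnion, Set.mem_ofPred_eq,
      not_exists]
    constructor
    · rintro h L j c ⟨h2, h3, h4⟩ h5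
      have h6 := le_clk h2 h3 h5
      have h7 : clk x (nn (3 * k)) ≤ M := h
      omega
    · intro h
      refine clk_le fun L j c h2 h3 h4 => ?_
      by_contra h5
      exact h L j c ⟨h2, h3, by omega⟩ h4
  rw [h1]
  exact (MeasurableSet.iUnion fun L => MeasurableSet.iUnion fun j => MeasurableSet.iUnion fun c =>
    MeasurableSet.iUnion fun _ => measurableSet_lim _ _ _ _).compl

open Classical in
/-- The set of positions where the clock label is even. -/
noncomputable def ee (x : ℕ → Bool) (m : ℕ) : Bool :=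
  decide (∃ k, G x (2 * k) ≤ m ∧ m < G x (2 * k + 1))

theorem measurable_ee (m : ℕ) : Measurable fun x : ℕ → Bool => ee x m := by
  refine measurable_to_bool ?_
  have h1 : (fun x : ℕ → Bool => ee x m) ⁻¹' {true} =
      ⋃ k, ((fun x => G x (2 * k)) ⁻¹' Set.Iic m ∩ (fun x => G x (2 * k + 1)) ⁻¹' Set.Ioi m) := by
    ext x
    simp [ee]
  rw [h1]
  exact MeasurableSet.iUnion fun k => (measurable_G _ measurableSet_Iic).inter
    (measurable_G _ measurableSet_Ioi)

/-- The columns. -/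
noncomputable def cc (σ : List Bool) (x : ℕ → Bool) (n : ℕ) : ℕ → Bool :=
  glue σ fun m => ee x (Nat.pair n m)

theorem measurable_cc (σ : List Bool) : Measurable (cc σ) := by
  refine measurable_pi_lambda _ fun n => measurable_pi_lambda _ fun m => ?_
  by_cases h : m < σ.length
  · have h1 : (fun x => cc σ x n m) = fun _ => σ[m] := by
      funext x
      simp [cc, glue, h]
    rw [h1]
    exact measurable_const
  · have h1 : (fun x => cc σ x n m) = fun x => ee x (Nat.pair n (m - σ.length)) := by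
      funext x
      simp [cc, glue, h]
    rw [h1]
    exact measurable_ee _

/-! ### The scale -/

/-- A sparse scale for `h`. -/
def ss (h : ℕ → ℕ) : ℕ → ℕ
  | 0 => 1
  | i + 1 => ss h i + h (ss h i) + 1

theorem ss_strictMono (h : ℕ → ℕ) : StrictMono (ss h) := strictMono_nat_of_lt_succ fun j => by
  change ss h j < ss h j + h (ss h j) + 1
  omega

theorem h_lt_ss (h : ℕ → ℕ) (i : ℕ) : h (ss h i) < ss h (i + 1) := by
  change _ < ss h i + h (ss h i) + 1
  omega

/-- The Turing saturation of the sets of reals with infinitely many columns in `V`. -/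
def sat (V : Set (ℕ → Bool)) (Φ : (ℕ → Bool) → ℕ → ℕ → Bool) : Set (ℕ → Bool) :=
  {x | ∃ x', TLe x' x ∧ TLe x x' ∧ ∃ᶠ n in atTop, Φ x' n ∈ V}

theorem sat_invariant (V : Set (ℕ → Bool)) (Φ : (ℕ → Bool) → ℕ → ℕ → Bool) :
    TuringInvariant (sat V Φ) := by
  rintro x y h1 h2 ⟨x', h3, h4, h5⟩
  exact ⟨x', TLe.trans h3 h1, TLe.trans h2 h4, h5⟩

theorem compl_invariant {A : Set (ℕ → Bool)} (h : TuringInvariant A) : TuringInvariant Aᶜ :=
  fun x y h1 h2 hx hy => hx (h y x h2 h1 hy)

variable {V : Set (ℕ → Bool)}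

/-- Passing to a larger set of columns. -/
theorem frequently_of_le (hV : ∀ a b, a ∈ V → (∀ n, a n = true → b n = true) → b ∈ V)
    {σ : List Bool} {X Y : ℕ → Bool} {M : ℕ} (h : ∀ m ≥ M, X m = true → Y m = true)
    (hX : ∃ᶠ n in atTop, glue σ (fun m => X (Nat.pair n m)) ∈ V) :
    ∃ᶠ n in atTop, glue σ (fun m => Y (Nat.pair n m)) ∈ V := by
  refine (hX.and_eventually (eventually_ge_atTop M)).mono fun n hn => ?_
  refine hV _ _ hn.1 fun m hm => ?_
  unfold glue at hm ⊢
  split_ifs at hm ⊢ with h1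
  · exact hm
  · exact h _ (hn.2.trans (Nat.left_le_pair _ _)) hm

theorem case_one (hV : ∀ a b, a ∈ V → (∀ n, a n = true → b n = true) → b ∈ V)
    {σ : List Bool} {z : ℕ → Bool} (hz : ∀ x, TLe z x → x ∈ sat V (cc σ)) :
    ∃ s : ℕ → ℕ, StrictMono s ∧ ∀ (X : ℕ → Bool) (d : ℕ → ℕ), StrictMono d →
      (∀ i, ∀ m ∈ Set.Ico (s (2 * d i)) (s (2 * d i + 2)), X m = true) →
      ∃ᶠ n in atTop, glue σ (fun m => X (Nat.pair n m)) ∈ V := by
  obtain ⟨h, hh⟩ := control z
  refine ⟨ss h, ss_strictMono h, fun X d hd hX => ?_⟩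
  let τ : ℕ → ℕ := fun j => ss h (2 * d (j / 2) + j % 2)
  have hτ : StrictMono τ := strictMono_nat_of_lt_succ fun j => by
    refine ss_strictMono h ?_
    rcases Nat.even_or_odd' j with ⟨k, rfl | rfl⟩
    · have h1 : 2 * k / 2 = k := by omega
      have h2 : (2 * k + 1) / 2 = k := by omega
      rw [h1, h2]
      omega
    · have h1 : (2 * k + 1) / 2 = k := by omega
      have h2 : (2 * k + 1 + 1) / 2 = k + 1 := by omega
      have h3 := hd (Nat.lt_succ_self k)
      rw [h1, h2]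
      have h4 : d k < d (k + 1) := h3
      omega
  have hτ0 : ∀ k, τ (2 * k) = ss h (2 * d k) := fun k => by
    have h1 : 2 * k / 2 = k := by omega
    have h2 : 2 * k % 2 = 0 := by omega
    simp only [τ, h1, h2, Nat.add_zero]
  have hτ1 : ∀ k, τ (2 * k + 1) = ss h (2 * d k + 1) := fun k => by
    have h1 : (2 * k + 1) / 2 = k := by omega
    have h2 : (2 * k + 1) % 2 = 1 := by omega
    simp only [τ, h1, h2]
  obtain ⟨y, hy, hy'⟩ := hh τ hτ
  obtain ⟨x', h1, h2, h3⟩ := hz y hy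
  obtain ⟨k₀, hk₀⟩ := hy' x' h2 h1
  refine frequently_of_le hV (M := (Finset.range k₀).sup (fun k => G x' (2 * k + 1))) ?_ h3
  intro m hm hm'
  simp only [ee, decide_eq_true_eq] at hm'
  obtain ⟨k, h4, h5⟩ := hm'
  by_cases hk : k < k₀
  · have h6 := Finset.le_sup (f := fun k => G x' (2 * k + 1)) (Finset.mem_range.2 hk)
    omega
  · have h6 := (hk₀ (2 * k) (by omega)).1
    have h7 := (hk₀ (2 * k + 1) (by omega)).2
    rw [hτ0] at h6
    rw [hτ1] at h7
    refine hX k m ⟨h6.trans h4, ?_⟩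
    have h8 := h_lt_ss h (2 * d k + 1)
    have h9 : 2 * d k + 1 + 1 = 2 * d k + 2 := by omega
    rw [h9] at h8
    omega

theorem case_two (hV : ∀ a b, a ∈ V → (∀ n, a n = true → b n = true) → b ∈ V)
    {σ : List Bool} {z : ℕ → Bool} (hz : ∀ x, TLe z x → x ∉ sat V (cc σ)) :
    ∃ s : ℕ → ℕ, StrictMono s ∧ ∀ (X : ℕ → Bool) (d : ℕ → ℕ), StrictMono d →
      (∀ i, ∀ m ∈ Set.Ico (s (2 * d i)) (s (2 * d i + 2)), X m = false) →
      ¬ ∃ᶠ n in atTop, glue σ (fun m => X (Nat.pair n m)) ∈ V := by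
  obtain ⟨h, hh⟩ := control z
  refine ⟨ss h, ss_strictMono h, fun X d hd hX hV' => ?_⟩
  let τ : ℕ → ℕ := fun j => if j = 0 then 0 else ss h (2 * d ((j - 1) / 2) + (j - 1) % 2)
  have hτ0 : ∀ k, τ (2 * k + 1) = ss h (2 * d k) := fun k => by
    have h1 : (2 * k + 1 - 1) / 2 = k := by omega
    have h2 : (2 * k + 1 - 1) % 2 = 0 := by omega
    simp only [τ, h1, h2, Nat.add_zero]
    rw [if_neg (by omega)]
  have hτ1 : ∀ k, τ (2 * k + 2) = ss h (2 * d k + 1) := fun k => by
    have h1 : (2 * k + 2 - 1) / 2 = k := by omega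
    have h2 : (2 * k + 2 - 1) % 2 = 1 := by omega
    simp only [τ, h1, h2]
    rw [if_neg (by omega)]
  have hτ : StrictMono τ := strictMono_nat_of_lt_succ fun j => by
    rcases Nat.even_or_odd' j with ⟨k, rfl | rfl⟩
    · rw [hτ0]
      cases k with
      | zero =>
        have h1 : τ (2 * 0) = 0 := by simp [τ]
        rw [h1]
        have h2 := (ss_strictMono h).monotone (Nat.zero_le (2 * d 0))
        have h3 : ss h 0 = 1 := rfl
        omega
      | succ k =>
        have h1 : 2 * (k + 1) = 2 * k + 2 := by omega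
        rw [h1, hτ1]
        refine ss_strictMono h ?_
        have h3 : d k < d (k + 1) := hd (Nat.lt_succ_self k)
        omega
    · rw [hτ0]
      have h1 : 2 * k + 1 + 1 = 2 * k + 2 := by omega
      rw [h1, hτ1]
      exact ss_strictMono h (by omega)
  obtain ⟨y, hy, hy'⟩ := hh τ hτ
  obtain ⟨k₀, hk₀⟩ := hy' y (TLe.refl y) (TLe.refl y)
  refine hz y hy ⟨y, TLe.refl y, TLe.refl y, ?_⟩
  refine frequently_of_le hV (M := (Finset.range (k₀ + 1)).sup (fun k => G y k)) ?_ hV'
  intro m hm hm'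
  -- the first clock value above `m`
  have h1 : ∃ k, m < G y k := by
    refine ⟨k₀ + m + 1, ?_⟩
    have h2 := (hk₀ (k₀ + m + 1) (by omega)).1
    have h3 := hτ.id_le (k₀ + m + 1)
    simp only [id] at h3
    omega
  have h2 : m < G y (Nat.find h1) := Nat.find_spec h1
  have h3 : k₀ < Nat.find h1 := by
    by_contra hc
    have h4 := Finset.le_sup (f := fun k => G y k)
      (Finset.mem_range.2 (show Nat.find h1 < k₀ + 1 by omega))
    omega
  have h4 : ¬ m < G y (Nat.find h1 - 1) := Nat.find_min h1 (by omega)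
  obtain ⟨j, hj⟩ : ∃ j, Nat.find h1 = j + 1 := ⟨Nat.find h1 - 1, by omega⟩
  rw [hj] at h2 h3 h4
  have h5 : j + 1 - 1 = j := by omega
  rw [h5] at h4
  simp only [ee, decide_eq_true_eq]
  rcases Nat.even_or_odd' j with ⟨k, rfl | rfl⟩
  · exact ⟨k, by omega, h2⟩
  · exfalso
    have h6 := (hk₀ (2 * k + 1) (by omega)).1
    have h7 := (hk₀ (2 * k + 2) (by omega)).2
    rw [hτ0] at h6
    rw [hτ1] at h7
    have h8 := h_lt_ss h (2 * d k + 1)
    have h9 : 2 * d k + 1 + 1 = 2 * d k + 2 := by omega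
    have h10 : 2 * k + 1 + 1 = 2 * k + 2 := by omega
    rw [h9] at h8
    rw [h10] at h2
    have h11 := hX k m ⟨by omega, by omega⟩
    rw [h11] at hm'
    cases hm'

/-- Determinacy of the Turing saturations gives the Baire property. -/
theorem baire_of_determined (hV : ∀ a b, a ∈ V → (∀ n, a n = true → b n = true) → b ∈ V)
    (h : ∀ σ, Determined (sat V (cc σ))) : BaireMeasurableSet V := by
  refine baire_of_local fun σ => ?_
  rcases h σ with h1 | h1
  · obtain ⟨z, hz⟩ := cone_of_wins (b := 0) (by omega) (sat_invariant V (cc σ)) h1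
    obtain ⟨s, hs, h2⟩ := case_one hV hz
    by_contra hc
    push Not at hc
    obtain ⟨X, h3, d, hd, h4⟩ := exists_cols (W := Vᶜ) (σ := σ) (fun ρ => (hc ρ).2) s hs true
    obtain ⟨n, hn⟩ := (h2 X d hd h4).exists
    exact h3 n hn
  · obtain ⟨z, hz⟩ := cone_of_wins (b := 1) (by omega)
      (compl_invariant (sat_invariant V (cc σ))) h1
    obtain ⟨s, hs, h2⟩ := case_two hV (σ := σ) (z := z) hz
    by_contra hc
    push Not at hc
    obtain ⟨X, h3, d, hd, h4⟩ := exists_cols (W := V) (σ := σ) (fun ρ => (hc ρ).1) s hs false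
    exact h2 X d hd h4 (Frequently.of_forall h3)

end Pool.Agent.W885.TD
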